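import Pool.Agent.Helper54.SP.StmtsP

set_option autoImplicit false

namespace Pool.Agent.Helper54.SP

open Finset

/-- bounds on a finite set of lists -/
lemma lift_bd (k n : ℕ) (F : List ℕ → ℝ)
    (hF : ∀ l : List ℕ, l.length = k → l.Nodup → (∀ i ∈ l, i < n) → 0 < F l) :
    ∃ μ M : ℝ, 0 < μ ∧ 0 < M ∧ ∀ l : List ℕ, l.length = k → l.Nodup → (∀ i ∈ l, i < n) →
      μ ≤ F l ∧ F l ≤ M := by
  classical
  let G : (Fin k → Fin n) → ℝ := fun f =>
    if (List.ofFn (fun i => (f i : ℕ))).Nodup then F (List.ofFn (fun i => (f i : ℕ))) else 1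
  have hG : ∀ f, 0 < G f := by
    intro f
    simp only [G]
    split_ifs with h
    · refine hF _ (List.length_ofFn) h (fun i hi => ?_)
      rw [List.mem_ofFn] at hi
      obtain ⟨j, rfl⟩ := hi
      exact (f j).2
    · exact one_pos
  have h1 : 0 ≤ ∑ f : Fin k → Fin n, 1 / G f :=
    Finset.sum_nonneg (fun f _ => (one_div_pos.mpr (hG f)).le)
  have h2 : 0 ≤ ∑ f : Fin k → Fin n, G f := Finset.sum_nonneg (fun f _ => (hG f).le)
  refine ⟨1 / (1 + ∑ f : Fin k → Fin n, 1 / G f), 1 + ∑ f : Fin k → Fin n, G f,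
    by positivity, by positivity, ?_⟩
  intro l hl hnd hn
  have hlt : ∀ i : Fin k, l.getD i 0 < n := by
    intro i
    have h3 : (i : ℕ) < l.length := by rw [hl]; exact i.2
    rw [List.getD_eq_getElem _ _ h3]
    exact hn _ (List.getElem_mem h3)
  let f : Fin k → Fin n := fun i => ⟨l.getD i 0, hlt i⟩
  have hf : List.ofFn (fun i => (f i : ℕ)) = l := by
    refine List.ext_getElem ?_ ?_
    · rw [List.length_ofFn, hl]
    · intro i h3 h4
      rw [List.getElem_ofFn]
      simp only [f]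
      exact List.getD_eq_getElem _ _ h4
  have hGf : G f = F l := by
    simp only [G]
    rw [hf, if_pos hnd]
  have h3 : 1 / G f ≤ ∑ f : Fin k → Fin n, 1 / G f :=
    Finset.single_le_sum (f := fun f => 1 / G f) (fun f _ => (one_div_pos.mpr (hG f)).le)
      (Finset.mem_univ f)
  have h4 : G f ≤ ∑ f : Fin k → Fin n, G f :=
    Finset.single_le_sum (f := G) (fun f _ => (hG f).le) (Finset.mem_univ f)
  rw [hGf] at h3 h4
  have hF0 := hF l hl hnd hn
  constructor
  · rw [div_le_iff₀ (by positivity)]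
    rw [div_le_iff₀ hF0] at h3
    nlinarith
  · linarith

lemma lift_sb (m : ℕ) (c : Bool) : sb (xor (decide (m % 2 = 1)) c) = (-1) ^ m * sb c := by
  rcases Nat.mod_two_eq_zero_or_one m with h | h
  · have h1 : (-1 : ℝ) ^ m = 1 := Even.neg_one_pow (Nat.even_iff.mpr h)
    rw [h1, h]
    cases c <;> simp [sb]
  · have h1 : (-1 : ℝ) ^ m = -1 := Odd.neg_one_pow (Nat.odd_iff.mpr h)
    rw [h1, h]
    cases c <;> simp [sb]

lemma lift_notmem (l : List ℕ) (i : ℕ) (hi : i < l.length) (hnd : l.Nodup) :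
    l[i] ∉ l.eraseIdx i := by
  rw [List.mem_eraseIdx_iff_getElem]
  rintro ⟨j, hj, hji, h⟩
  exact hji ((List.Nodup.getElem_inj_iff hnd).mp h)

theorem st_LIFT (hLE1 : ST_LE1) (hLE2 : ST_LE2) (hAMX : ST_AMX) : ST_LIFT := by
  intro k n X χ ρ hA hinj hmax
  obtain ⟨μ, M, hμ, hM, hbd⟩ := lift_bd k n (fun l => sb (χ l) * dt k X l) hA
  obtain ⟨T, hT⟩ : ∃ T : ℝ, T = (k + 1) * M / μ + 1 := ⟨_, rfl⟩
  have hq0 : 0 < (k + 1) * M / μ := by positivity
  have hT1 : 1 ≤ T := by rw [hT]; linarith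
  have hT0 : 0 < T := by linarith
  have hkM : (k : ℝ) * M < μ * T := by
    have h1 : μ * ((k + 1) * M / μ) = (k + 1) * M := by field_simp
    have h2 : μ * T = (k + 1) * M + μ := by rw [hT, mul_add, h1, mul_one]
    rw [h2]
    linarith
  refine ⟨fun i => T ^ (ρ i), fun i => pow_pos hT0 _, ?_⟩
  intro l hl hnd hn
  have hlne : l ≠ [] := by
    intro h
    rw [h] at hl
    simp at hl
  have hle : ∀ i ∈ l, i ≤ n := fun i hi => Nat.lt_succ_iff.mp (hn i hi)
  obtain ⟨ha1, ha2, ha3⟩ := hAMX ρ l hlne hnd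
    (fun i hi j hj h => hinj i j (hle i hi) (hle j hj) h)
  have hlex : lexs ρ χ l = xor (decide ((amax ρ l + k) % 2 = 1)) (χ (l.eraseIdx (amax ρ l))) := by
    unfold lexs
    rw [hl, Nat.add_sub_cancel]
  rw [hlex, lift_sb]
  have her : ∀ i, i < k + 1 → (l.eraseIdx i).length = k ∧ (l.eraseIdx i).Nodup := by
    intro i hi
    refine ⟨?_, hnd.eraseIdx i⟩
    rw [List.length_eraseIdx_of_lt (by rw [hl]; exact hi), hl, Nat.add_sub_cancel]
  by_cases hnl : n ∈ l
  · -- the new element is in the list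
    obtain ⟨i, hi, hin⟩ := List.getElem_of_mem hnl
    have hik : i < k + 1 := by rw [← hl]; exact hi
    have hgd : l.getD i 0 = n := by rw [List.getD_eq_getElem _ _ hi]; exact hin
    have hai : amax ρ l = i := by
      refine ha3 i hi (fun j hj => ?_)
      rw [hgd]
      rcases eq_or_lt_of_le (hle j hj) with h | h
      · rw [h]
      · exact (hmax j h).le
    rw [hai, hLE2 k n X _ l i hl hnd hn hik hgd]
    have h1 := hA (l.eraseIdx i) (her i hik).1 (her i hik).2 (fun j hj => by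
      have h2 : j ∈ l := List.mem_of_mem_eraseIdx hj
      refine lt_of_le_of_ne (hle j h2) ?_
      intro h3
      rw [h3] at hj
      have h4 := lift_notmem l i hi hnd
      rw [hin] at h4
      exact h4 hj)
    have h5 : ((-1 : ℝ) ^ (i + k)) * (-1) ^ (i + k) = 1 := by
      rw [← mul_pow]
      norm_num
    have h6 : (-1) ^ (i + k) * sb (χ (l.eraseIdx i)) * ((-1) ^ (i + k) * dt k X (l.eraseIdx i)) =
        (((-1 : ℝ) ^ (i + k)) * (-1) ^ (i + k)) * (sb (χ (l.eraseIdx i)) *
          dt k X (l.eraseIdx i)) := by ring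
    rw [h6, h5, one_mul]
    exact h1
  · -- all elements are old
    have hlt : ∀ i ∈ l, i < n := fun i hi =>
      lt_of_le_of_ne (hle i hi) (fun h => hnl (h ▸ hi))
    rw [hLE1 k n X _ l hl hlt]
    obtain ⟨a, ha⟩ : ∃ a : ℕ, a = amax ρ l := ⟨_, rfl⟩
    rw [← ha] at ha1 ha2 ⊢
    have hak : a < k + 1 := by rw [← hl]; exact ha1
    have herl : ∀ i, i < k + 1 → μ ≤ sb (χ (l.eraseIdx i)) * dt k X (l.eraseIdx i) ∧
        sb (χ (l.eraseIdx i)) * dt k X (l.eraseIdx i) ≤ M := by
      intro i hi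
      exact hbd _ (her i hi).1 (her i hi).2 (fun j hj => hlt j (List.mem_of_mem_eraseIdx hj))
    have hsb : ∀ c : Bool, |sb c| = 1 := by
      intro c
      cases c <;> simp [sb]
    have hdt : ∀ i, i < k + 1 → |dt k X (l.eraseIdx i)| ≤ M := by
      intro i hi
      obtain ⟨h1, h2⟩ := herl i hi
      have h3 : |sb (χ (l.eraseIdx i)) * dt k X (l.eraseIdx i)| ≤ M := by
        rw [abs_of_pos (by linarith)]
        exact h2
      rw [abs_mul, hsb, one_mul] at h3
      exact h3
    obtain ⟨H, hH⟩ : ∃ H : ℝ, H = T ^ (ρ (l.getD a 0)) := ⟨_, rfl⟩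
    have hH0 : 0 < H := by rw [hH]; exact pow_pos hT0 _
    have hother : ∀ i, i < k + 1 → i ≠ a → T ^ (ρ (l.getD i 0)) * T ≤ H := by
      intro i hi hia
      have hi' : i < l.length := by rw [hl]; exact hi
      have h1 : l.getD i 0 ∈ l := by
        rw [List.getD_eq_getElem _ _ hi']
        exact List.getElem_mem hi'
      have h1' : l.getD a 0 ∈ l := by
        rw [List.getD_eq_getElem _ _ ha1]
        exact List.getElem_mem ha1
      have h2 := ha2 _ h1
      have h3 : ρ (l.getD i 0) ≠ ρ (l.getD a 0) := by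
        intro h4
        have h5 := hinj _ _ (hle _ h1) (hle _ h1') h4
        rw [List.getD_eq_getElem _ _ hi', List.getD_eq_getElem _ _ ha1] at h5
        exact hia ((List.Nodup.getElem_inj_iff hnd).mp h5)
      rw [hH, ← pow_succ]
      exact pow_le_pow_right₀ hT1 (by omega)
    rw [← Finset.add_sum_erase _ _ (Finset.mem_range.mpr hak)]
    obtain ⟨s, hs⟩ : ∃ s : ℝ, s = (-1) ^ (a + k) * sb (χ (l.eraseIdx a)) := ⟨_, rfl⟩
    rw [← hs]
    have hs1 : |s| = 1 := by
      rw [hs, abs_mul, abs_pow, abs_neg, abs_one, one_pow, hsb, one_mul]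
    have hmain : H * μ ≤ s * ((-1) ^ (a + k) * T ^ ρ (l.getD a 0) * dt k X (l.eraseIdx a)) := by
      rw [← hH, hs]
      have h5 : ((-1 : ℝ) ^ (a + k)) * (-1) ^ (a + k) = 1 := by
        rw [← mul_pow]
        norm_num
      have h6 : (-1) ^ (a + k) * sb (χ (l.eraseIdx a)) *
          ((-1) ^ (a + k) * H * dt k X (l.eraseIdx a)) =
          (((-1 : ℝ) ^ (a + k)) * (-1) ^ (a + k)) * (H * (sb (χ (l.eraseIdx a)) *
          dt k X (l.eraseIdx a))) := by ring
      rw [h6, h5, one_mul]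
      exact mul_le_mul_of_nonneg_left (herl a hak).1 hH0.le
    have hrest : |∑ i ∈ (range (k + 1)).erase a, (-1) ^ (i + k) * T ^ ρ (l.getD i 0) *
        dt k X (l.eraseIdx i)| * T ≤ k * (H * M) := by
      have h7 : |∑ i ∈ (range (k + 1)).erase a, (-1) ^ (i + k) * T ^ ρ (l.getD i 0) *
          dt k X (l.eraseIdx i)| ≤ ∑ i ∈ (range (k + 1)).erase a, H / T * M := by
        refine (Finset.abs_sum_le_sum_abs _ _).trans (Finset.sum_le_sum (fun i hi => ?_))
        have hia := Finset.ne_of_mem_erase hi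
        have hik := Finset.mem_range.mp (Finset.mem_of_mem_erase hi)
        rw [abs_mul, abs_mul, abs_pow, abs_neg, abs_one, one_pow, one_mul,
          abs_of_pos (pow_pos hT0 _)]
        refine mul_le_mul ?_ (hdt i hik) (abs_nonneg _) (by positivity)
        rw [le_div_iff₀ hT0]
        exact hother i hik hia
      rw [Finset.sum_const, Finset.card_erase_of_mem (Finset.mem_range.mpr hak),
        Finset.card_range, Nat.add_sub_cancel, nsmul_eq_mul] at h7
      calc |∑ i ∈ (range (k + 1)).erase a, (-1) ^ (i + k) * T ^ ρ (l.getD i 0) *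
          dt k X (l.eraseIdx i)| * T ≤ (k * (H / T * M)) * T :=
            mul_le_mul_of_nonneg_right h7 hT0.le
        _ = k * (H * M) := by field_simp
    rw [mul_add]
    obtain ⟨R, hR⟩ : ∃ R : ℝ, R = ∑ i ∈ (range (k + 1)).erase a, (-1) ^ (i + k) *
        T ^ ρ (l.getD i 0) * dt k X (l.eraseIdx i) := ⟨_, rfl⟩
    rw [← hR] at hrest ⊢
    have h8 : -|R| ≤ s * R := by
      have h9 := neg_abs_le (s * R)
      rw [abs_mul, hs1, one_mul] at h9
      exact h9
    have h9 : |R| < H * μ := by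
      have h10 : |R| * T < H * μ * T := by
        calc |R| * T ≤ k * (H * M) := hrest
          _ = H * (k * M) := by ring
          _ < H * (μ * T) := mul_lt_mul_of_pos_left hkM hH0
          _ = H * μ * T := by ring
      exact lt_of_mul_lt_mul_right h10 hT0.le
    linarith

end Pool.Agent.Helper54.SP
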